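import Pool.Agent.W206.MO.TopMain

/-!
# The strong monodromy conjecture for topological zeta functions reduces to cubics `∑ t_j q_j(x)`

If, for all polynomials `∑_j t_j q_j(x) ∈ ℂ[x, t]` with `q_j` of degree at most two, every pole of
the topological zeta function is a root of the Bernstein-Sato polynomial, then the same holds for
all non-constant polynomials over `ℂ`.

The topological zeta function is defined through the motivic zeta function of Denef and Loeser: if
`Z_f^mot(T)` is a polynomial `Φ` over `𝓜_ℂ` in `T` and the series `(𝕃 - 1) / (1 - 𝕃 ^ a T ^ b)`,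
`b > 0`, as it is by the formula of Denef and Loeser for an embedded resolution, then `Z_top(s)` is
the value of `Φ`, with the Euler characteristic `χ` applied to its coefficients, at `T = 1` and
`1 / (b s - a)`. It does not depend on `Φ`.

The proof attaches to every `f` and all large `m` such a cubic `g`, obtained from `u f` by `m` moves
`F ↦ F + (y - a)(t + e)` with new variables `y`, `t`, which replace a product `a = x_i x_j` in a
monomial `a e` of `F` by the new variable `y`. Then
`(s + m)(s + 1)(1 - Z_g(s)) = s (s + m + 1 - Z_f(s + m))` and `b_g(s)` divides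
`(s + 1) b_f(s + m)`.
-/

set_option autoImplicit false

namespace Pool.Agent.Results.MP_504089_ag.CubicReduction

open Pool.Agent.W428.MOT Pool.Agent.W375.MG Pool.Agent.W206.MO
open Pool.Agent.H628R4.TP (IsBFunction IsBernsteinSatoOf)

/-- The strong monodromy conjecture for the topological zeta function `R` of `f`: every pole `s₀`
of `R` is a root of the Bernstein-Sato polynomial of `f`. -/
def TopSMC (χ : MK ℂ →+* ℤ) {n : ℕ} (f : MvPolynomial (Fin n) ℂ) : Prop :=
  ∀ R : RatFunc ℂ, IsTop χ (zetaOrd f Set.univ) R → ∀ s₀ : ℂ, R.denom.eval s₀ = 0 →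
    ∀ b : Polynomial ℂ, IsBernsteinSatoOf f b → b.eval s₀ = 0

theorem result (χ : MK ℂ →+* ℤ) (hχ : IsEuler χ) :
    (∀ (n : ℕ) (f : MvPolynomial (Fin n) ℂ), (∀ c : ℂ, f ≠ MvPolynomial.C c) → TopSMC χ f) ↔
    (∀ (n k : ℕ) (q : Fin k → MvPolynomial (Fin n) ℂ), (∀ j, (q j).totalDegree ≤ 2) →
      (∀ c : ℂ, cubic q ≠ MvPolynomial.C c) → TopSMC χ (cubic q)) := by
  constructor
  · intro h n k q _ hq
    exact h _ _ hq
  · intro h n f hf R hR s₀ hs b hb
    have hf0 : f ≠ 0 := by
      have := hf 0
      rwa [map_zero] at this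
    obtain ⟨n', k, m, q, R', b', hq, hne, hsm, hR', hs', hb', hdvd⟩ :=
      exists_cubic hχ.line f hf0 hR hs hb
    have h1 := h n' k q hq hne R' hR' _ hs' b' hb'
    obtain ⟨c, hc⟩ := hdvd
    have h2 := congrArg (Polynomial.eval (s₀ - m)) hc
    rw [Polynomial.eval_mul, Polynomial.eval_mul, h1, zero_mul, Polynomial.eval_comp,
      Polynomial.eval_add, Polynomial.eval_add, Polynomial.eval_X, Polynomial.eval_one,
      Polynomial.eval_C, sub_add_cancel] at h2
    rcases mul_eq_zero.1 h2 with h3 | h3
    · exact absurd (by linear_combination h3) hsm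
    · exact h3

end Pool.Agent.Results.MP_504089_ag.CubicReduction
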