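import Mathlib
import Pool.Agent.W425.GN.Top

/-!
# The strong monodromy conjecture for polynomials with generic coefficients at the vertices

Let `F ⊆ ℂ` be a field and `f = ∑_j a_j x ^ (v j) + h`, where `h ∈ F[x_1, …, x_N]` is an ARBITRARY
polynomial whose exponents lie in the convex hull of the `v j ≠ 0`, and only the coefficients `a_j`
(for instance at the vertices of the Newton polytope of `f`) are generic: `g(a) ≠ 0` for a certain
nonzero polynomial `g` with coefficients in `F`. Then `f` is nondegenerate and `b_f(s) Z(s)` is a
polynomial in `s`, where `Z` is the global topological zeta function of `f`: every pole of `Z` is a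
root of `b_f`, of at least the same order.

Method. For coefficients `a_j` which are algebraically independent over `F` this is
`finalGlobalC` (`Pool/Agent/W422/GC/Up.lean`), proved from the functional equation of `b_f`. Now
`(s - α) ^ (m + 1)` divides `b_f` if and only if there is no identity
`(s - α) ^ m f ^ s = P(s) f ^ (s + 1) + (s - α) ^ (m + 1) Q(s) f ^ s`. Gröbner bases in the Weyl algebra
over `F(a_1, …, a_r)`, spread out over `F[a_1, …, a_r, 1 / g]`, show that such an identity for one
member of the family with `g(a) ≠ 0` gives one for the generic member. By Bernstein's theorem for the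
generic member only finitely many pairs `(α, m)` have to be considered.
-/

set_option autoImplicit false

namespace Pool.Agent.Results.MP_504089_ag.GenericCoefficients

open Polynomial Pool.Agent.H628R4.TP Pool.Agent.W425.SM Pool.Agent.W425.SV
  Pool.Agent.W422.GC Pool.Agent.W425.MM

/-- **The strong monodromy conjecture, with multiplicities, for `f = ∑_j a_j x ^ (v j) + h`, `h`
arbitrary over the field `F` with exponents in the convex hull of the `v j`, the `a_j` generic.**

`NonD v c`, here for the exponents and coefficients of `∑_j a_j x ^ (v j)` together with those of `h`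
(`we h` and `wc h`), says that `f` is nondegenerate: for every `u ∈ ℕ ^ N` the face polynomial `f_u`
and all the `x_i ∂ f_u / ∂ x_i` have no common zero with all coordinates nonzero.

`IsBFunction f b` says that `b(s) f ^ s = P(s) f ^ (s + 1)` for a differential operator `P(s)`. The
Bernstein-Sato polynomial `b_f` is the monic one of least degree of these polynomials.

`R` is any smooth fan with support the positive orthant on which the ideal `(x ^ (v j))_j` becomes
principal, and `topZetaG v R` is the global topological zeta function of the nondegenerate polynomial
`f`, computed on the embedded resolution `X_R`: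
`∑_{σ ∈ R} ((chiO σ - chiG v R σ) + chiG v R σ / (s + 1)) ∏_{ρ ∈ σ} 1 / (ord(ρ) s + |ρ|)`.
Here `chiO σ` is the Euler characteristic of the torus orbit of `σ` and
`chiG v R σ = (-1) ^ (N - dim σ - 1) Vol` (for `dim σ < N`, and `0` for `dim σ = N`) that of the
strict transform of `{f = 0}` in the orbit (Kouchnirenko), where `Vol` is the normalised volume of
the face of `σ` of the convex hull of the `v j`: the Lebesgue volume in lattice coordinates, divided
by that of the standard simplex. -/
theorem result {r N : ℕ} (hr : 1 ≤ r) (F : Subfield ℂ) (v : Fin r → Fin N → ℕ)
    (hv : Function.Injective v) (hv0 : ∀ j, v j ≠ 0)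
    (h : MvPolynomial (Fin N) F) (hh : ∀ w ∈ h.support, Hull v w) :
    ∃ g : MvPolynomial (Fin r) F, g ≠ 0 ∧ ∀ a : Fin r → ℂ, MvPolynomial.aeval a g ≠ 0 →
      NonD (Fin.append v (we h)) (Fin.append a (fun l => algebraMap F ℂ (wc h l))) ∧
      ∀ b : ℂ[X], IsBFunction (sparse v a + MvPolynomial.map (algebraMap F ℂ) h) b →
        ∀ R : SmoothFan N, Principal v R →
        ∃ P : ℂ[X], algebraMap ℂ[X] (RatFunc ℂ) b * topZetaG v R =
          algebraMap ℂ[X] (RatFunc ℂ) P :=
  Pool.Agent.W425.GN.gen_top hr v hv hv0 h hh

end Pool.Agent.Results.MP_504089_ag.GenericCoefficients
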