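import Pool.Agent.W574.HS.Form

set_option autoImplicit false

/-! # The strong monodromy conjecture for the hypersurfaces `∑ y_j f_j(x₁, x₂) = 0`

Here the `f_j` are arbitrary polynomials in the two variables `x₁, x₂`, and `y_j` are further
variables: `F = univ f = ∑ y_j f_j(x₁, x₂)`. The topological zeta function of `F` is
`Z_I / (s + 1)`, where `Z_I` is the topological zeta function of the ideal `I = (f_j)`, computed
by blowing up points of the plane; see `FormZeta` (in `Pool.Agent.W574.HS.Form`), `PlaneZeta` and
`LocalZeta` (in `Pool.Agent.W574.SM.ZetaDefs`).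

The proof:

* `functionalEq_of_univ`: a functional equation of `F` gives a functional equation of the ideal
  `(f_j)` with the same `b` (one direction of a theorem of Mustata, 2019);
* `plane_main`: the poles of `Z_I` are roots of `b`;
* `minus_one`: `b(-1) = 0`. -/

namespace Pool.Agent.Results.MP_504089_ag.PlaneForms

open MvPolynomial Pool.Agent.W574.HS Pool.Agent.H628R4.TP

/-- **The strong monodromy conjecture holds for the polynomials `F = ∑ y_j f_j(x₁, x₂)`.** Let
`f_j` be polynomials in two variables, not all zero, let `b` be a polynomial which satisfies a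
functional equation `b(s) F ^ s = P(s) F ^ (s + 1)` (in particular the Bernstein-Sato polynomial of
`F`), and let `Z` be the topological zeta function of `F`. Then every pole of `Z` is a root of
`b`. -/
theorem result {ι : Type} [Fintype ι] (f : ι → MvPolynomial (Fin 2) ℂ) (hf : ∃ j, f j ≠ 0)
    (b : Polynomial ℂ) (hb : IsBFunction (univ f) b) (Z : RatFunc ℂ) (hZ : FormZeta f Z) (s₀ : ℂ)
    (hs₀ : Z.denom.eval s₀ = 0) : b.eval s₀ = 0 := by
  classical
  exact form_main f hf b hb Z hZ s₀ hs₀

end Pool.Agent.Results.MP_504089_ag.PlaneForms
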