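import Mathlib
import Pool.Agent.W425.SM.Final

/-!
# The strong monodromy conjecture for sparse polynomials with affinely independent exponents

Let `f = ∑_j a_j x ^ (v j)` (`r ≥ 2` terms, `N` variables, all `a_j ≠ 0`, no constant term) with
affinely independent exponents `v j`. Then `b_f(s) Z(s)` is a polynomial in `s`, where `Z` is the
global topological zeta function of `f`; in particular every pole of `Z` is a root of `b_f`, of at
least the same order.

Examples: all binomials `x ^ u + x ^ w`, all trinomials whose exponents are not on a line, the
Fermat-Pham polynomials and all the polynomials given by an invertible matrix of exponents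
(chain, loop, ... , with isolated singularities or not), `x ^ u (x_1 ^ a_1 + ⋯ + x_n ^ a_n)`, ...
-/

set_option autoImplicit false

namespace Pool.Agent.Results.MP_504089_ag.SparseIndependent

open Polynomial Pool.Agent.H628R4.TZ Pool.Agent.H628R4.TP Pool.Agent.W425.SM

/-- **The strong monodromy conjecture, with multiplicities, for the polynomials
`f = ∑_j a_j x ^ (v j)` with affinely independent exponents.**

`IsBFunction (sparse v a) b` says that `b(s) f ^ s = P(s) f ^ (s + 1)` for a differential operator
`P(s)`; the Bernstein-Sato polynomial `b_f` is by definition one of these polynomials `b` (the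
monic one of least degree). `R` is any smooth fan with support the positive orthant on which the
ideal `(x ^ (v j))_j` becomes principal, and `topZetaSparse v R` is the global topological zeta
function of `f`, computed on the embedded resolution `X_R`. -/
theorem result {r N : ℕ} (hr : 2 ≤ r) (v : Fin r → Fin N → ℕ) (a : Fin r → ℂ)
    (hv : AffineIndependent ℚ (fun j => (fun i => (v j i : ℚ) : Fin N → ℚ)))
    (hv0 : ∀ j, v j ≠ 0) (ha : ∀ j, a j ≠ 0) (R : SmoothFan N) (hR : Principal v R)
    (b : ℂ[X]) (hb : IsBFunction (sparse v a) b) :
    ∃ P : ℂ[X], algebraMap ℂ[X] (RatFunc ℂ) b * topZetaSparse v R =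
      algebraMap ℂ[X] (RatFunc ℂ) P :=
  main hr v a hv hv0 ha R hR b hb

end Pool.Agent.Results.MP_504089_ag.SparseIndependent
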